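import Pool.Agent.H586.AF.E2

/-!
# Project AH (helper586), task SUA: the anticommutator form of `SU(N)`

The completeness relations are those of the file of helper778 for the Killing form of `SU(N)`.
-/

set_option autoImplicit false

open MeasureTheory Matrix Finset Filter Topology
open scoped Matrix.Norms.Frobenius

namespace Pool.Agent.H873.AH

open Pool.Agent.H586.AF.GG

variable {N : ℕ}

/-- the determinant of the exponential of an antihermitian matrix -/
lemma det_exp_anti (X : Mt N) (hX : Xᴴ = -X) :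
    (NormedSpace.exp X).det = Complex.exp X.trace := by
  classical
  have hH : (((-Complex.I) • X) : Mt N).IsHermitian := by
    show (((-Complex.I) • X) : Mt N)ᴴ = _
    rw [conjTranspose_smul, hX]
    simp
  obtain ⟨U, hU⟩ : ∃ U : Matrix.unitaryGroup (Fin N) ℂ, U = hH.eigenvectorUnitary := ⟨_, rfl⟩
  obtain ⟨d, hd⟩ : ∃ d : Fin N → ℝ, d = hH.eigenvalues := ⟨_, rfl⟩
  have hs := hH.spectral_theorem
  rw [Unitary.conjStarAlgAut_apply, ← hU, ← hd] at hs
  have hUU : (star (U : Mt N)) * (U : Mt N) = 1 := Unitary.coe_star_mul_self U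
  have hUU' : (U : Mt N) * (star (U : Mt N)) = 1 := Unitary.coe_mul_star_self U
  have hX2 : X = (U : Mt N) * diagonal (fun i => Complex.I * (d i : ℂ)) * star (U : Mt N) := by
    have h1 : X = Complex.I • (((-Complex.I) • X) : Mt N) := by
      rw [smul_smul]
      simp
    rw [h1, hs]
    rw [← smul_mul_assoc, ← mul_smul_comm, ← diagonal_smul]
    rfl
  let V : (Mt N)ˣ := ⟨(U : Mt N), star (U : Mt N), hUU', hUU⟩
  have h3 : NormedSpace.exp X = (U : Mt N) * NormedSpace.exp (diagonal (fun i => Complex.I * (d i : ℂ))) *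
      star (U : Mt N) := by
    rw [hX2]
    exact Matrix.exp_units_conj V _
  have h4 : X.trace = ∑ i, Complex.I * (d i : ℂ) := by
    rw [hX2, trace_mul_comm, ← mul_assoc, hUU, one_mul, trace_diagonal]
  rw [h3, h4, det_mul, det_mul, mul_comm, ← mul_assoc, ← det_mul, hUU, det_one, one_mul,
    exp_diagonal, det_diagonal, Complex.exp_sum]
  refine Finset.prod_congr rfl fun i _ => ?_
  rw [Pi.coe_exp, Complex.exp_eq_exp_ℂ]

/-- the elements of the Lie algebra are antihermitian -/
lemma lie_anti {G : Subgroup (UU N)} {X : Mt N} (hX : X ∈ Lie G) : Xᴴ = -X := by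
  have h1 : ∀ t : ℝ, NormedSpace.exp (t • Xᴴ) * NormedSpace.exp (t • X) = 1 := by
    intro t
    obtain ⟨g, hg⟩ := hX t
    have h2 : NormedSpace.exp (t • Xᴴ) = (NormedSpace.exp (t • X))ᴴ := by
      rw [← exp_conjTranspose, conjTranspose_smul]
      simp
    rw [h2, ← hg]
    exact Unitary.coe_star_mul_self (g : UU N)
  have h3 : HasDerivAt (fun t : ℝ => NormedSpace.exp (t • Xᴴ) * NormedSpace.exp (t • X))
      (Xᴴ * NormedSpace.exp ((0 : ℝ) • Xᴴ) * NormedSpace.exp ((0 : ℝ) • X) +
        NormedSpace.exp ((0 : ℝ) • Xᴴ) * (X * NormedSpace.exp ((0 : ℝ) • X))) 0 :=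
    (hasDerivAt_exp_smul_const' (𝕂 := ℝ) Xᴴ 0).mul (hasDerivAt_exp_smul_const' (𝕂 := ℝ) X 0)
  have h4 : (fun t : ℝ => NormedSpace.exp (t • Xᴴ) * NormedSpace.exp (t • X)) = fun _ => (1 : Mt N) :=
    funext h1
  rw [h4] at h3
  have h5 := h3.unique (hasDerivAt_const (0 : ℝ) (1 : Mt N))
  rw [zero_smul, zero_smul, NormedSpace.exp_zero, mul_one, mul_one, mul_one, one_mul] at h5
  exact eq_neg_of_add_eq_zero_left h5

/-- ... and, for `SU(N)`, traceless -/
lemma lie_trace {X : Mt N} (hX : X ∈ Lie (SUN N)) : X.trace = 0 := by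
  have ha := lie_anti hX
  have h1 : ∀ t : ℝ, Complex.exp ((t : ℂ) * X.trace) = 1 := by
    intro t
    obtain ⟨g, hg⟩ := hX t
    have h2 : (mt g).det = 1 := g.2
    have h3 : (t • X)ᴴ = -(t • X) := by
      rw [conjTranspose_smul, ha]
      simp
    rw [hg, det_exp_anti _ h3, trace_smul] at h2
    simpa using h2
  have h3 : HasDerivAt (fun t : ℝ => Complex.exp ((t : ℂ) * X.trace))
      (Complex.exp (((0 : ℝ) : ℂ) * X.trace) * (1 * X.trace)) 0 := by
    have h5 : HasDerivAt (fun t : ℝ => ((t : ℝ) : ℂ)) 1 0 := Complex.ofRealCLM.hasDerivAt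
    exact (h5.mul_const X.trace).cexp
  have h4 : (fun t : ℝ => Complex.exp ((t : ℂ) * X.trace)) = fun _ => (1 : ℂ) := funext h1
  rw [h4] at h3
  have h5 := h3.unique (hasDerivAt_const (0 : ℝ) (1 : ℂ))
  simpa using h5

/-- the traceless antihermitian matrices are in the Lie algebra of `SU(N)` -/
lemma mem_lie {Y : Mt N} (hY : Yᴴ = -Y) (ht : Y.trace = 0) : Y ∈ Lie (SUN N) := by
  intro t
  have h3 : (t • Y)ᴴ = -(t • Y) := by
    rw [conjTranspose_smul, hY]
    simp
  have h1 : NormedSpace.exp (t • Y) ∈ unitary (Mt N) :=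
    NormedSpace.exp_mem_unitary_of_mem_skewAdjoint (skewAdjoint.mem_iff.2 h3)
  have h2 : (NormedSpace.exp (t • Y)).det = 1 := by
    rw [det_exp_anti _ h3, trace_smul, ht, smul_zero, Complex.exp_zero]
  exact ⟨⟨⟨NormedSpace.exp (t • Y), h1⟩, h2⟩, rfl⟩

section basis

variable {n : ℕ} {T : Fin n → Mt N}

/-- the trace form is real on antihermitian matrices -/
lemma trace_real {A B : Mt N} (hA : Aᴴ = -A) (hB : Bᴴ = -B) :
    (trace (Aᴴ * B)) = ((ip A B : ℝ) : ℂ) := by
  have h1 : star (trace (Aᴴ * B)) = trace (Aᴴ * B) := by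
    rw [← trace_conjTranspose, conjTranspose_mul, conjTranspose_conjTranspose, hA, hB, neg_mul,
      neg_mul, trace_neg, trace_neg, trace_mul_comm]
  have h2 : (trace (Aᴴ * B)).im = 0 := Complex.conj_eq_iff_im.1 h1
  apply Complex.ext
  · rfl
  · rw [h2, Complex.ofReal_im]

/-- completeness on antihermitian matrices -/
lemma complete_anti (hN : 1 ≤ N) (hT : Bas (SUN N) T) {Y : Mt N} (hY : Yᴴ = -Y) :
    ∑ a, trace ((T a)ᴴ * Y) • T a = Y - (Y.trace / N) • (1 : Mt N) := by
  have hN0 : (N : ℂ) ≠ 0 := by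
    have : N ≠ 0 := by omega
    exact_mod_cast this
  obtain ⟨Z, hZ⟩ : ∃ Z : Mt N, Z = Y - (Y.trace / N) • (1 : Mt N) := ⟨_, rfl⟩
  have htr : star Y.trace = -Y.trace := by
    rw [← trace_conjTranspose, hY, trace_neg]
  have hZa : Zᴴ = -Z := by
    rw [hZ, conjTranspose_sub, conjTranspose_smul, conjTranspose_one, hY, star_div₀, htr]
    have : star (N : ℂ) = (N : ℂ) := by simp
    rw [this, neg_div, neg_smul]
    abel
  have hZt : Z.trace = 0 := by
    rw [hZ, trace_sub, trace_smul, trace_one, Fintype.card_fin, smul_eq_mul,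
      div_mul_cancel₀ _ hN0, sub_self]
  have h1 := hT.span Z (mem_lie hZa hZt)
  have h2 : ∀ a, trace ((T a)ᴴ * Y) • T a = ip (T a) Z • T a := by
    intro a
    have h3 : trace ((T a)ᴴ * Y) = trace ((T a)ᴴ * Z) := by
      rw [hZ, mul_sub, trace_sub, mul_smul_comm, trace_smul, mul_one, trace_conjTranspose,
        lie_trace (hT.mem a)]
      simp
    rw [h3, trace_real (lie_anti (hT.mem a)) hZa]
    rfl
  rw [Finset.sum_congr rfl fun a _ => h2 a, ← h1, hZ]

/-- completeness -/
lemma complete (hN : 1 ≤ N) (hT : Bas (SUN N) T) (M : Mt N) :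
    ∑ a, trace ((T a)ᴴ * M) • T a = M - (M.trace / N) • (1 : Mt N) := by
  obtain ⟨A, hA⟩ : ∃ A : Mt N, A = (1 / 2 : ℂ) • (M - Mᴴ) := ⟨_, rfl⟩
  obtain ⟨B, hB⟩ : ∃ B : Mt N, B = (-Complex.I / 2 : ℂ) • (M + Mᴴ) := ⟨_, rfl⟩
  have hM : M = A + Complex.I • B := by
    rw [hA, hB, smul_smul]
    have : Complex.I * (-Complex.I / 2) = 1 / 2 := by
      have := Complex.I_mul_I
      linear_combination (-1 / 2 : ℂ) * this
    rw [this, ← smul_add]
    have h2 : M - Mᴴ + (M + Mᴴ) = (2 : ℂ) • M := by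
      rw [two_smul]
      abel
    rw [h2, smul_smul]
    norm_num
  have hAa : Aᴴ = -A := by
    rw [hA, conjTranspose_smul, conjTranspose_sub, conjTranspose_conjTranspose, ← smul_neg, neg_sub]
    simp
  have hBa : Bᴴ = -B := by
    rw [hB, conjTranspose_smul, conjTranspose_add, conjTranspose_conjTranspose, ← neg_smul,
      add_comm Mᴴ M]
    congr 1
    simp [neg_div]
  have h1 := complete_anti hN hT hAa
  have h2 := complete_anti hN hT hBa
  have h3 : ∑ a, trace ((T a)ᴴ * M) • T a =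
      ∑ a, trace ((T a)ᴴ * A) • T a + Complex.I • ∑ a, trace ((T a)ᴴ * B) • T a := by
    rw [Finset.smul_sum, ← Finset.sum_add_distrib]
    refine Finset.sum_congr rfl fun a _ => ?_
    conv_lhs => rw [hM]
    rw [mul_add, trace_add, mul_smul_comm, trace_smul, add_smul, smul_eq_mul, mul_smul]
  rw [h3, h1, h2]
  conv_rhs => rw [hM]
  rw [trace_add, trace_smul, smul_sub, smul_smul, add_div, add_smul, smul_eq_mul, mul_div_assoc]
  abel

/-- entries of the completeness relation -/
lemma entries (hN : 1 ≤ N) (hT : Bas (SUN N) T) (i j k l : Fin N) :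
    ∑ a, star (T a k l) * T a i j =
      (if i = k ∧ j = l then 1 else 0) - (if k = l ∧ i = j then 1 / (N : ℂ) else 0) := by
  have h := congrFun (congrFun (complete hN hT (Matrix.single k l 1)) i) j
  rw [Matrix.sum_apply] at h
  have h1 : ∀ a, trace ((T a)ᴴ * Matrix.single k l (1 : ℂ)) = star (T a k l) := by
    intro a
    rw [Matrix.trace_mul_single]
    simp
  simp only [h1, Matrix.smul_apply, Matrix.sub_apply, smul_eq_mul] at h
  rw [h, Matrix.single_apply]
  congr 1
  · by_cases h2 : k = i ∧ l = j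
    · rw [if_pos h2, if_pos ⟨h2.1.symm, h2.2.symm⟩]
    · rw [if_neg h2, if_neg fun h3 => h2 ⟨h3.1.symm, h3.2.symm⟩]
  · by_cases h2 : k = l
    · subst h2
      rw [Matrix.trace_single_eq_same]
      by_cases h3 : i = j
      · subst h3
        simp
      · simp [h3]
    · rw [Matrix.trace_single_eq_of_ne _ _ _ h2]
      simp [h2]

/-- the main formula -/
lemma key (hN : 1 ≤ N) (hT : Bas (SUN N) T) (P Q : Mt N) :
    ∑ a, trace ((T a)ᴴ * P * T a * Q) = P.trace * Q.trace - (P * Q).trace / N := by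
  have h1 : ∀ a, trace ((T a)ᴴ * P * T a * Q) =
      ∑ l, ∑ j, ∑ i, ∑ k, star (T a k l) * T a i j * (P k i * Q j l) := by
    intro a
    rw [Matrix.trace]
    refine Finset.sum_congr rfl fun l _ => ?_
    rw [Matrix.diag_apply, Matrix.mul_apply]
    refine Finset.sum_congr rfl fun j _ => ?_
    rw [Matrix.mul_apply, Finset.sum_mul]
    refine Finset.sum_congr rfl fun i _ => ?_
    rw [Matrix.mul_apply, Finset.sum_mul, Finset.sum_mul]
    refine Finset.sum_congr rfl fun k _ => ?_
    rw [Matrix.conjTranspose_apply]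
    ring
  have h2 : ∑ a, trace ((T a)ᴴ * P * T a * Q) =
      ∑ l, ∑ j, ∑ i, ∑ k, (∑ a, star (T a k l) * T a i j) * (P k i * Q j l) := by
    rw [Finset.sum_congr rfl fun a _ => h1 a, Finset.sum_comm]
    refine Finset.sum_congr rfl fun l _ => ?_
    rw [Finset.sum_comm]
    refine Finset.sum_congr rfl fun j _ => ?_
    rw [Finset.sum_comm]
    refine Finset.sum_congr rfl fun i _ => ?_
    rw [Finset.sum_comm]
    refine Finset.sum_congr rfl fun k _ => ?_
    rw [Finset.sum_mul]
  have h3 : ∀ l j : Fin N, ∑ i, ∑ k, (∑ a, star (T a k l) * T a i j) * (P k i * Q j l) =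
      (if j = l then P.trace * Q l l else 0) - 1 / (N : ℂ) * (P l j * Q j l) := by
    intro l j
    have h4 : ∀ i : Fin N, ∑ k, (∑ a, star (T a k l) * T a i j) * (P k i * Q j l) =
        (if j = l then P i i * Q j l else 0) - (if i = j then 1 / (N : ℂ) * (P l i * Q j l) else 0) := by
      intro i
      have h5 : ∀ k : Fin N, (∑ a, star (T a k l) * T a i j) * (P k i * Q j l) =
          (if i = k then (if j = l then P k i * Q j l else 0) else 0) -
            (if k = l then (if i = j then 1 / (N : ℂ) * (P k i * Q j l) else 0) else 0) := by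
        intro k
        rw [entries hN hT, sub_mul]
        congr 1
        · by_cases h6 : i = k <;> by_cases h7 : j = l <;> simp [h6, h7]
        · by_cases h6 : k = l <;> by_cases h7 : i = j <;> simp [h6, h7]
      rw [Finset.sum_congr rfl fun k _ => h5 k, Finset.sum_sub_distrib, Finset.sum_ite_eq,
        Finset.sum_ite_eq', if_pos (Finset.mem_univ _), if_pos (Finset.mem_univ _)]
    rw [Finset.sum_congr rfl fun i _ => h4 i, Finset.sum_sub_distrib, Finset.sum_ite_eq',
      if_pos (Finset.mem_univ _)]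
    congr 1
    by_cases h6 : j = l
    · simp only [if_pos h6]
      rw [← Finset.sum_mul, h6]
      rfl
    · simp only [if_neg h6]
      exact Finset.sum_const_zero
  rw [h2]
  have h7 : ∑ l, ∑ j, ∑ i, ∑ k, (∑ a, star (T a k l) * T a i j) * (P k i * Q j l) =
      ∑ l : Fin N, (P.trace * Q l l - 1 / (N : ℂ) * ∑ j, P l j * Q j l) := by
    refine Finset.sum_congr rfl fun l _ => ?_
    rw [Finset.sum_congr rfl fun j _ => h3 l j, Finset.sum_sub_distrib, Finset.sum_ite_eq',
      if_pos (Finset.mem_univ _), ← Finset.mul_sum]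
  rw [h7, Finset.sum_sub_distrib, ← Finset.mul_sum, ← Finset.mul_sum]
  have h8 : ∑ l, ∑ j, P l j * Q j l = (P * Q).trace := by
    rw [Matrix.trace]
    refine Finset.sum_congr rfl fun l _ => ?_
    rw [Matrix.diag_apply, Matrix.mul_apply]
  rw [h8]
  have h9 : ∑ l, Q l l = Q.trace := rfl
  rw [h9]
  ring

end basis

/-- the norm -/
lemma trace_self (A : Mt N) : trace (Aᴴ * A) = ((ip A A : ℝ) : ℂ) := by
  have h1 : star (trace (Aᴴ * A)) = trace (Aᴴ * A) := by
    rw [← trace_conjTranspose, conjTranspose_mul, conjTranspose_conjTranspose]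
  have h2 : (trace (Aᴴ * A)).im = 0 := Complex.conj_eq_iff_im.1 h1
  apply Complex.ext
  · rfl
  · rw [h2, Complex.ofReal_im]

/-- **Task AH-SUA**. -/
theorem tsua : Pool.Agent.H586.AF.EE.S_SUA := by
  intro N hN n T hT X hX
  have hXa := lie_anti hX
  have hXt := lie_trace hX
  have hN0 : (N : ℂ) ≠ 0 := by
    have : N ≠ 0 := by omega
    exact_mod_cast this
  have h1 : ∀ a, ((hp X (T a) (T a) : ℝ) : ℂ) =
      trace ((T a)ᴴ * (Xᴴ * X) * T a * 1) + trace ((T a)ᴴ * Xᴴ * T a * X) +
        trace ((T a)ᴴ * X * T a * Xᴴ) + trace ((T a)ᴴ * 1 * T a * (X * Xᴴ)) := by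
    intro a
    rw [hp, ← trace_self, conjTranspose_add, conjTranspose_mul, conjTranspose_mul]
    have e1 : ((T a)ᴴ * Xᴴ + Xᴴ * (T a)ᴴ) * (X * T a + T a * X) =
        (T a)ᴴ * (Xᴴ * X) * T a * 1 + (T a)ᴴ * Xᴴ * T a * X +
          Xᴴ * ((T a)ᴴ * X * T a) + Xᴴ * ((T a)ᴴ * 1 * T a * X) := by
      noncomm_ring
    rw [e1, trace_add, trace_add, trace_add, trace_mul_comm Xᴴ, trace_mul_comm Xᴴ]
    simp only [mul_assoc]
  have h2 : ((∑ a, hp X (T a) (T a) : ℝ) : ℂ) = ((2 * (N - 2 / N) * ip X X : ℝ) : ℂ) := by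
    rw [Complex.ofReal_sum, Finset.sum_congr rfl fun a _ => h1 a, Finset.sum_add_distrib,
      Finset.sum_add_distrib, Finset.sum_add_distrib, key hN hT, key hN hT, key hN hT, key hN hT]
    push_cast
    rw [← trace_real hXa hXa, hXt, mul_one, one_mul, trace_one, Fintype.card_fin,
      trace_mul_comm X Xᴴ]
    field_simp
    ring
  exact_mod_cast h2

end Pool.Agent.H873.AH
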